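import Pool.Agent.H83.AR.Targets
import Pool.Agent.H83.LS.PIECE

/-!
# PG: good data, good output
-/

set_option autoImplicit false

namespace Pool.Agent.H35.BR

open MeasureTheory Set FourierTransform Filter
open Pool.Agent.H83.AR Pool.Agent.H93.AR Pool.Agent.H83.LS Pool.Agent.H54.LS Pool.Agent.H14.LS
open Pool.Agent.H83.LS.PIEm
open scoped ENNReal NNReal

variable {n : ℕ}

/-! ### measurability and the exchange of integrals -/

lemma eta0_meas : Measurable eta0 := eta0_smooth.continuous.measurable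

lemma chis_meas : Measurable chis := by
  unfold chis
  exact (eta0_meas.comp (by fun_prop)).sub (eta0_meas.comp (by fun_prop))

lemma KK_meas (lam Lam : ℝ) : Measurable fun q : ℝ × (ℝ × ℝ) => KK q.1 lam Lam q.2 := by
  unfold KK
  apply StronglyMeasurable.measurable
  apply StronglyMeasurable.integral_prod_right
    (f := fun (q : ℝ × (ℝ × ℝ)) (ξ : ℝ × ℝ) =>
      e (q.2.1 * ξ.1 + q.2.2 * ξ.2 + q.1 * Real.sqrt (ξ.1 ^ 2 + ξ.2 ^ 2)) *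
        ((chi (Real.sqrt (ξ.1 ^ 2 + ξ.2 ^ 2) / lam) * chis (ξ.1 / Lam) : ℝ) : ℂ))
  apply Measurable.stronglyMeasurable
  apply Measurable.mul
  · exact measurable_e.comp (by fun_prop)
  · apply Complex.measurable_ofReal.comp
    apply Measurable.mul
    · exact chi_smooth.continuous.measurable.comp (by fun_prop)
    · exact chis_meas.comp (by fun_prop)

lemma cv_meas_abs {S : Type*} [MeasurableSpace S] {K : ℝ → ℝ × ℝ → ℂ}
    (hK : Measurable fun q : ℝ × (ℝ × ℝ) => K q.1 q.2) {G : S → ℝ × ℝ → ℂ}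
    (hG : Measurable fun q : S × (ℝ × ℝ) => G q.1 q.2) :
    Measurable fun q : (ℝ × S) × (ℝ × ℝ) => ∫ y, K q.1.1 (q.2 - y) * G q.1.2 y := by
  apply StronglyMeasurable.measurable
  apply StronglyMeasurable.integral_prod_right
    (f := fun (q : (ℝ × S) × (ℝ × ℝ)) (y : ℝ × ℝ) => K q.1.1 (q.2 - y) * G q.1.2 y)
  apply Measurable.stronglyMeasurable
  apply Measurable.mul
  · have h1 : Measurable fun z : ((ℝ × S) × (ℝ × ℝ)) × (ℝ × ℝ) =>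
        ((z.1.1.1, z.1.2 - z.2) : ℝ × (ℝ × ℝ)) := by fun_prop
    exact hK.comp h1
  · have h1 : Measurable fun z : ((ℝ × S) × (ℝ × ℝ)) × (ℝ × ℝ) =>
        ((z.1.1.2, z.2) : S × (ℝ × ℝ)) := by fun_prop
    exact hG.comp h1

lemma cv_meas {lam Lam : ℝ} {G : Sp n → ℝ × ℝ → ℂ}
    (hG : Measurable fun q : Sp n × (ℝ × ℝ) => G q.1 q.2) :
    Measurable fun q : (ℝ × Sp n) × (ℝ × ℝ) => cv (KK q.1.1 lam Lam) (G q.1.2) q.2 := by
  unfold cv
  exact cv_meas_abs (K := fun t => KK t lam Lam) (KK_meas lam Lam) hG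

lemma swap_abs {α β γ : Type*} [MeasurableSpace α] [MeasurableSpace β] [MeasurableSpace γ]
    {μ : Measure α} {ν : Measure β} {κ : Measure γ} [SFinite μ] [SFinite ν] [SFinite κ]
    {F : α → β → γ → ℝ≥0∞} (hF : Measurable fun q : (α × β) × γ => F q.1.1 q.1.2 q.2) :
    ∫⁻ t, ∫⁻ v, ∫⁻ x, F t v x ∂κ ∂ν ∂μ = ∫⁻ v, ∫⁻ t, ∫⁻ x, F t v x ∂κ ∂μ ∂ν := by
  apply lintegral_lintegral_swap
  exact (Measurable.lintegral_prod_right' (ν := κ) hF).aemeasurable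

lemma swap_int {lam Lam p : ℝ} {G : Sp n → ℝ × ℝ → ℂ}
    (hG : Measurable fun q : Sp n × (ℝ × ℝ) => G q.1 q.2) {W : ℝ × ℝ → ℝ≥0∞}
    (hW : Measurable W) :
    ∫⁻ t in Icc (1 : ℝ) 2, ∫⁻ v : Sp n, ∫⁻ x : ℝ × ℝ, ‖cv (KK t lam Lam) (G v) x‖ₑ ^ p * W x
        ∂volume ∂(sg n) =
      ∫⁻ v : Sp n, ∫⁻ t in Icc (1 : ℝ) 2, ∫⁻ x : ℝ × ℝ, ‖cv (KK t lam Lam) (G v) x‖ₑ ^ p * W x
        ∂volume ∂volume ∂(sg n) := by
  have h0 : Measurable fun q : (ℝ × Sp n) × (ℝ × ℝ) => cv (KK q.1.1 lam Lam) (G q.1.2) q.2 :=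
    cv_meas (lam := lam) (Lam := Lam) hG
  have h1 : Measurable fun q : (ℝ × Sp n) × (ℝ × ℝ) =>
      ‖cv (KK q.1.1 lam Lam) (G q.1.2) q.2‖ₑ ^ p := h0.enorm.pow_const p
  have h2 : Measurable fun q : (ℝ × Sp n) × (ℝ × ℝ) => W q.2 := hW.comp measurable_snd
  have h3 : Measurable fun q : (ℝ × Sp n) × (ℝ × ℝ) =>
      ‖cv (KK q.1.1 lam Lam) (G q.1.2) q.2‖ₑ ^ p * W q.2 := h1.mul h2
  exact swap_abs (μ := volume.restrict (Icc (1 : ℝ) 2)) (ν := sg n) (κ := volume)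
    (F := fun t v x => ‖cv (KK t lam Lam) (G v) x‖ₑ ^ p * W x) h3

/-! ### angular averages and cutoffs -/

lemma AL_cut (hAM : T_AM) (hn : 1 ≤ n) {L : ℝ} (hL : 1 ≤ L) (R : Set ℝ) (f : EE (n + 1) → ℂ) :
    AL L (cutR R f) = cutR R (AL L f) := by
  funext x
  have h1 := (hAM n L hn hL).2.2.2.2.1 f (fun r _ => R.indicator (fun _ => (1 : ℂ)) r) x
  have h2 : ∀ g : EE (n + 1) → ℂ, (fun x => R.indicator (fun _ => (1 : ℂ)) (hor x) * g x)
      = cutR R g := by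
    intro g
    funext y
    unfold cutR
    by_cases hy : hor y ∈ R
    · rw [indicator_of_mem hy, indicator_of_mem (show y ∈ {x | hor x ∈ R} from hy), one_mul]
    · rw [indicator_of_notMem hy, indicator_of_notMem (show y ∉ {x | hor x ∈ R} from hy),
        zero_mul]
  rw [h2 f] at h1
  rw [h1, ← h2 (AL L f)]

lemma AL_bcd (hAM : T_AM) (hn : 1 ≤ n) {L A : ℝ} (hL : 1 ≤ L) {f : EE (n + 1) → ℂ}
    (hf : BCd A f) : BCd A (AL L f) := by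
  obtain ⟨h1, h2, R, h3⟩ := hf
  obtain ⟨a1, a2, -⟩ := hAM n L hn hL
  refine ⟨a1 f h1, a2 f A h1 h2, R, fun x hx => ?_⟩
  unfold AL
  have h4 : ∀ w : Sp n, f (jo (hor x • (w : EE n)) (x (Fin.last n))) = 0 := by
    intro w
    apply h3
    have h5 : ‖jo (hor x • (w : EE n)) (x (Fin.last n))‖ ^ 2 = ‖x‖ ^ 2 := by
      rw [jo_norm_sq, norm_smul, norm_eq_of_mem_sphere w, mul_one, norm_sq_eq x,
        Real.norm_of_nonneg (Pool.Agent.H54.LS.hor_nonneg x)]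
    have h6 : ‖jo (hor x • (w : EE n)) (x (Fin.last n))‖ = ‖x‖ := by
      have := (sq_eq_sq₀ (norm_nonneg _) (norm_nonneg _)).1 h5
      exact this
    rw [h6]
    exact hx
  simp only [h4, mul_zero, integral_zero]

lemma cut_supp {R : Set ℝ} {f : EE (n + 1) → ℂ} {x : EE (n + 1)} (hx : cutR R f x ≠ 0) :
    hor x ∈ R ∧ f x ≠ 0 := by
  unfold cutR at hx
  by_cases h : x ∈ {x | hor x ∈ R}
  · rw [indicator_of_mem h] at hx
    exact ⟨h, hx⟩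
  · rw [indicator_of_notMem h] at hx
    exact absurd rfl hx

lemma cut_sq_le {R : Set ℝ} (f : EE (n + 1) → ℂ) :
    ∫⁻ x, ‖cutR R f x‖ₑ ^ 2 ≤ ∫⁻ x, ‖f x‖ₑ ^ 2 := by
  apply lintegral_mono
  intro x
  simp only
  unfold cutR
  by_cases h : x ∈ {x | hor x ∈ R}
  · rw [indicator_of_mem h]
  · rw [indicator_of_notMem h]
    simp

/-- dyadic shells starting at `r` -/
def shl (r : ℝ) (j : ℕ) : Set ℝ := Ico (2 ^ j * r) (2 ^ (j + 1) * r)

lemma shl_meas (r : ℝ) (j : ℕ) : MeasurableSet (shl r j) := measurableSet_Ico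

lemma shl_sum {r : ℝ} (hr : 0 < r) (f : EE (n + 1) → ℂ) (J : ℕ) (x : EE (n + 1)) :
    ∑ j ∈ Finset.range J, cutR (shl r j) f x = cutR (Ico r (2 ^ J * r)) f x := by
  induction J with
  | zero =>
    simp [cutR]
  | succ J ih =>
    rw [Finset.sum_range_succ, ih]
    have h0 : (1 : ℝ) ≤ 2 ^ J := one_le_pow₀ (by norm_num)
    have h1 : (2 : ℝ) ^ J * r ≤ 2 ^ (J + 1) * r := by
      apply mul_le_mul_of_nonneg_right _ hr.le
      exact pow_le_pow_right₀ (by norm_num) (by omega)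
    have h1' : r ≤ 2 ^ J * r := by nlinarith
    unfold cutR shl
    by_cases ha : hor x < r
    · rw [indicator_of_notMem, indicator_of_notMem, indicator_of_notMem, add_zero]
      · intro h; exact absurd h.1 (not_le.2 ha)
      · intro h; exact absurd (h1'.trans h.1) (not_le.2 ha)
      · intro h; exact absurd h.1 (not_le.2 ha)
    · push Not at ha
      by_cases h2 : hor x < 2 ^ J * r
      · rw [indicator_of_mem, indicator_of_notMem, indicator_of_mem, add_zero]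
        · exact ⟨ha, lt_of_lt_of_le h2 h1⟩
        · intro h; exact absurd h.1 (not_le.2 h2)
        · exact ⟨ha, h2⟩
      · push Not at h2
        rw [indicator_of_notMem, zero_add]
        · by_cases h3 : hor x < 2 ^ (J + 1) * r
          · rw [indicator_of_mem, indicator_of_mem]
            · exact ⟨ha, h3⟩
            · exact ⟨h2, h3⟩
          · rw [indicator_of_notMem, indicator_of_notMem]
            · intro h; exact h3 h.2
            · intro h; exact h3 h.2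
        · intro h; exact absurd h.2 (not_lt.2 h2)

/-! ### arithmetic -/

lemma beta_facts {p : ℝ} (hn : 2 ≤ n) (hp2 : 2 < p) (hpn : p ≤ 2 + 2 / (n : ℝ)) :
    p ≤ 3 ∧ 0 ≤ ((n : ℝ) - 1) * (p / 2 - 1) ∧ ((n : ℝ) - 1) * (p / 2 - 1) < 1 ∧
    ((n : ℝ) - 1) * (p / 2 - 1) ≤ 2 - p / 2 ∧
    (((n : ℝ) - 1) / 2) * (p - 2) = ((n : ℝ) - 1) * (p / 2 - 1) := by
  have hn2 : (2 : ℝ) ≤ n := by exact_mod_cast hn
  have hp3 : p ≤ 3 := by
    have : 2 / (n : ℝ) ≤ 1 := by rw [div_le_one (by linarith)]; exact hn2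
    linarith
  have hnp : (n : ℝ) * (p / 2 - 1) ≤ 1 := by
    have h1 : p / 2 - 1 ≤ 1 / n := by
      have : p / 2 ≤ (2 + 2 / (n : ℝ)) / 2 := by linarith
      have h2 : (2 + 2 / (n : ℝ)) / 2 = 1 + 1 / n := by field_simp
      linarith
    calc (n : ℝ) * (p / 2 - 1) ≤ n * (1 / n) := mul_le_mul_of_nonneg_left h1 (by linarith)
      _ = 1 := by field_simp
  refine ⟨hp3, mul_nonneg (by linarith) (by linarith), by nlinarith, by nlinarith, by ring⟩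

lemma arith1 {D D' s β A C2 lam η p : ℝ} (hD : 0 < D) (hD' : 0 < D') (h : D' ≤ 2 * D)
    (hA : 0 ≤ A) (hC2 : 0 ≤ C2) (hlam : 0 < lam) (hβ0 : 0 ≤ β) (hs : s * (p - 2) = β) :
    D ^ (-β) * (lam ^ η * (C2 * (D' ^ s * A)) ^ (p - 2)) ≤
      2 ^ β * C2 ^ (p - 2) * (lam ^ η * A ^ (p - 2)) := by
  rw [Real.mul_rpow hC2 (by positivity), Real.mul_rpow (by positivity) hA,
    ← Real.rpow_mul hD'.le, hs, Real.rpow_neg hD.le]
  have h6 : D' ^ β ≤ 2 ^ β * D ^ β := by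
    rw [← Real.mul_rpow (by norm_num) hD.le]
    exact Real.rpow_le_rpow hD'.le h hβ0
  have h7 : (D ^ β)⁻¹ * D' ^ β ≤ 2 ^ β := by
    rw [inv_mul_eq_div, div_le_iff₀ (by positivity)]
    exact h6
  calc (D ^ β)⁻¹ * (lam ^ η * (C2 ^ (p - 2) * (D' ^ β * A ^ (p - 2))))
      = ((D ^ β)⁻¹ * D' ^ β) * (C2 ^ (p - 2) * (lam ^ η * A ^ (p - 2))) := by ring
    _ ≤ 2 ^ β * (C2 ^ (p - 2) * (lam ^ η * A ^ (p - 2))) :=
        mul_le_mul_of_nonneg_right h7 (by positivity)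
    _ = _ := by ring

lemma arith2 {D D' s β A C2 lam η p : ℝ} (hD : 0 < D) (hD' : 0 < D') (h : D' ≤ 2 * D)
    (hA : 0 ≤ A) (hC2 : 0 ≤ C2) (hlam : 0 < lam) (hβ0 : 0 ≤ β) (hs : s * (p - 2) = β) :
    ENNReal.ofReal (D ^ (-β)) * ENNReal.ofReal (lam ^ η * (C2 * (D' ^ s * A)) ^ (p - 2)) ≤
      (Real.toNNReal (2 ^ β * C2 ^ (p - 2)) : ℝ≥0∞) * ENNReal.ofReal (lam ^ η * A ^ (p - 2)) := by
  have e1 : (Real.toNNReal (2 ^ β * C2 ^ (p - 2)) : ℝ≥0∞) =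
      ENNReal.ofReal (2 ^ β * C2 ^ (p - 2)) := rfl
  rw [e1, ← ENNReal.ofReal_mul (by positivity), ← ENNReal.ofReal_mul (by positivity)]
  exact ENNReal.ofReal_le_ofReal (arith1 hD hD' h hA hC2 hlam hβ0 hs)

/-! ### away from the axis -/

attribute [local irreducible] KK cv GT MM mj AL

theorem far (hPA : T_PA) (hS : T_S2D) (hGO : T_GO) (n : ℕ) (p η : ℝ) (hn : 2 ≤ n)
    (hp2 : 2 < p) (hpn : p ≤ 2 + 2 / (n : ℝ)) (hη : 0 < η) :
    ∃ C : ℝ≥0, ∀ (lam Lam L A : ℝ) (f : EE (n + 1) → ℂ), 1 ≤ lam → 1 ≤ Lam → Lam ≤ 4 * lam →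
    1 ≤ L → L ^ 2 ≤ 8 * Lam → BCd A f → ∀ i : ℕ, 2 ≤ i →
    (∀ x, f x ≠ 0 → 8 * ((i : ℝ) - 1) ≤ hor x ∧ hor x ≤ 8 * ((i : ℝ) + 2)) →
    ∫⁻ t in Icc (1 : ℝ) 2, ∫⁻ x in {x : EE (n + 1) | 8 * (i : ℝ) ≤ hor x ∧
      hor x ≤ 8 * ((i : ℝ) + 1)}, ‖MM (mj n lam Lam t) (AL L (AL L f)) x‖ₑ ^ p ≤
      C * ENNReal.ofReal (lam ^ η * A ^ (p - 2)) * ∫⁻ x, ‖f x‖ₑ ^ 2 := by
  obtain ⟨hp3, hβ0, hβ1, hβ2, hsβ⟩ := beta_facts hn hp2 hpn
  set β : ℝ := ((n : ℝ) - 1) * (p / 2 - 1) with hβ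
  obtain ⟨C1, hC1⟩ := hPA n p hn (by linarith) hβ1 hβ0
  obtain ⟨⟨C2, hC20, hC2⟩, -⟩ := hGO n hn
  obtain ⟨C3, hC3⟩ := hS p η hp2 hp3 hη
  refine ⟨C1 * C3 * Real.toNNReal (2 ^ β * C2 ^ (p - 2)) * Real.toNNReal C2, ?_⟩
  intro lam Lam L A f hlam hLam hLL hL hL8 hA i hi hsupp
  have hn2 : (2 : ℝ) ≤ n := by exact_mod_cast hn
  have hi2 : (2 : ℝ) ≤ i := by exact_mod_cast hi
  have hlam0 : 0 < lam := by linarith
  have hLam0 : 0 < Lam := by linarith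
  have hA0 : 0 ≤ A := bcd_nonneg hA
  have hsL : ∀ x, f x ≠ 0 → L ^ 2 ≤ Lam * hor x := by
    intro x hx
    have h1 := (hsupp x hx).1
    have h2 : 8 * Lam ≤ Lam * hor x := by nlinarith
    linarith
  set A1 : ℝ := (8 * ((i : ℝ) + 2)) ^ (((n : ℝ) - 1) / 2) * A with hA1
  have hA10 : 0 ≤ A1 := by positivity
  have hAA : ∀ x, hor x ^ (((n : ℝ) - 1) / 2) * ‖f x‖ ≤ A1 := by
    intro x
    by_cases hx : f x = 0
    · rw [hx, norm_zero, mul_zero]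
      exact hA10
    · rw [hA1]
      refine mul_le_mul (Real.rpow_le_rpow (Pool.Agent.H54.LS.hor_nonneg x) (hsupp x hx).2
        (by linarith)) (hA.2.1 x) (norm_nonneg _) (by positivity)
  obtain ⟨gm, gi, gb, g2⟩ := hC2 L Lam A1 A f hL hLam0 hA hsL hAA
  have step1 : ∀ t, ∫⁻ x in {x : EE (n + 1) | 8 * (i : ℝ) ≤ hor x ∧
      hor x ≤ 8 * ((i : ℝ) + 1)}, ‖MM (mj n lam Lam t) (AL L (AL L f)) x‖ₑ ^ p ≤
      C1 * ENNReal.ofReal ((8 * (i : ℝ)) ^ (-β)) *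
        ∫⁻ v : Sp n, ∫⁻ x : ℝ × ℝ, ‖cv (KK t lam Lam) (GT n L Lam f v) x‖ₑ ^ p
          ∂volume ∂(sg n) := by
    intro t
    refine (hC1 L lam Lam t A f (Icc (8 * (i : ℝ)) (8 * ((i : ℝ) + 1))) hL hlam0 hLam0 hA hsL
      measurableSet_Icc ?_).2 (8 * (i : ℝ)) (by positivity) (fun r hr => hr.1)
    intro r hr
    have h1 : 16 ≤ r := by linarith [hr.1]
    exact ⟨by linarith, by nlinarith⟩
  have hsw := swap_int (lam := lam) (Lam := Lam) (p := p) (G := GT n L Lam f) gm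
    (W := fun _ => (1 : ℝ≥0∞)) measurable_const
  simp only [mul_one] at hsw
  calc ∫⁻ t in Icc (1 : ℝ) 2, ∫⁻ x in {x : EE (n + 1) | 8 * (i : ℝ) ≤ hor x ∧
      hor x ≤ 8 * ((i : ℝ) + 1)}, ‖MM (mj n lam Lam t) (AL L (AL L f)) x‖ₑ ^ p
      ≤ ∫⁻ t in Icc (1 : ℝ) 2, C1 * ENNReal.ofReal ((8 * (i : ℝ)) ^ (-β)) *
        ∫⁻ v : Sp n, ∫⁻ x : ℝ × ℝ, ‖cv (KK t lam Lam) (GT n L Lam f v) x‖ₑ ^ p
          ∂volume ∂(sg n) := lintegral_mono step1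
    _ = C1 * ENNReal.ofReal ((8 * (i : ℝ)) ^ (-β)) * ∫⁻ v : Sp n, ∫⁻ t in Icc (1 : ℝ) 2,
        ∫⁻ x : ℝ × ℝ, ‖cv (KK t lam Lam) (GT n L Lam f v) x‖ₑ ^ p ∂volume ∂volume ∂(sg n) := by
        rw [lintegral_const_mul' _ _ (ENNReal.mul_ne_top ENNReal.coe_ne_top
          ENNReal.ofReal_ne_top), hsw]
    _ ≤ C1 * ENNReal.ofReal ((8 * (i : ℝ)) ^ (-β)) * ∫⁻ v : Sp n,
        C3 * ENNReal.ofReal (lam ^ η * (C2 * A1) ^ (p - 2)) *
          ∫⁻ y, ‖GT n L Lam f v y‖ₑ ^ 2 ∂volume ∂(sg n) := by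
        gcongr with v
        exact (hC3 lam Lam (GT n L Lam f v) (C2 * A1) hlam hLam0 hLL
          (gm.comp measurable_prodMk_left) (gi v) (gb v)).1
    _ = C1 * ENNReal.ofReal ((8 * (i : ℝ)) ^ (-β)) *
        (C3 * ENNReal.ofReal (lam ^ η * (C2 * A1) ^ (p - 2)) *
          ∫⁻ v : Sp n, ∫⁻ y, ‖GT n L Lam f v y‖ₑ ^ 2 ∂volume ∂(sg n)) := by
        rw [lintegral_const_mul' _ _ (ENNReal.mul_ne_top ENNReal.coe_ne_top
          ENNReal.ofReal_ne_top)]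
    _ ≤ C1 * ENNReal.ofReal ((8 * (i : ℝ)) ^ (-β)) *
        (C3 * ENNReal.ofReal (lam ^ η * (C2 * A1) ^ (p - 2)) *
          (ENNReal.ofReal C2 * ∫⁻ x, ‖f x‖ₑ ^ 2)) := by
        gcongr
    _ = (C1 * C3 * ENNReal.ofReal C2) * (ENNReal.ofReal ((8 * (i : ℝ)) ^ (-β)) *
        ENNReal.ofReal (lam ^ η * (C2 * A1) ^ (p - 2))) * ∫⁻ x, ‖f x‖ₑ ^ 2 := by ring
    _ ≤ (C1 * C3 * ENNReal.ofReal C2) * ((Real.toNNReal (2 ^ β * C2 ^ (p - 2)) : ℝ≥0∞) *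
        ENNReal.ofReal (lam ^ η * A ^ (p - 2))) * ∫⁻ x, ‖f x‖ₑ ^ 2 := by
        have h9 := arith2 (D := 8 * (i : ℝ)) (D' := 8 * ((i : ℝ) + 2))
          (s := ((n : ℝ) - 1) / 2) (β := β) (A := A) (C2 := C2) (lam := lam) (η := η) (p := p)
          (by positivity) (by positivity) (by linarith) hA0 hC20 hlam0 hβ0 hsβ
        gcongr
    _ = _ := by
        push_cast
        rw [show ENNReal.ofReal C2 = (Real.toNNReal C2 : ℝ≥0∞) from rfl]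
        ring

/-! ### near the axis: one dyadic shell -/

lemma W_meas (Lam β : ℝ) : Measurable fun x : ℝ × ℝ =>
    ENNReal.ofReal ((|x.1| + 1 / Lam) ^ (-β)) := by
  apply Measurable.ennreal_ofReal
  apply Measurable.pow_const
  fun_prop

theorem near_piece (hPA : T_PA) (hWP : T_WP) (hGO : T_GO) (n : ℕ) (p η : ℝ) (hn : 2 ≤ n)
    (hp2 : 2 < p) (hpn : p ≤ 2 + 2 / (n : ℝ)) (hη : 0 < η) :
    ∃ C : ℝ≥0, ∀ (lam Lam L A D : ℝ) (f : EE (n + 1) → ℂ), 1 ≤ lam → 1 ≤ Lam → Lam ≤ 4 * lam →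
    1 ≤ L → BCd A f → 0 < D → L ^ 2 ≤ Lam * D → D ≤ 64 →
    (∀ x, f x ≠ 0 → D ≤ hor x ∧ hor x ≤ 2 * D) →
    ∫⁻ t in Icc (1 : ℝ) 2, ∫⁻ x in {x : EE (n + 1) | L ^ 2 ≤ Lam * hor x},
      ‖MM (mj n lam Lam t) (AL L (AL L f)) x‖ₑ ^ p ≤
      C * ENNReal.ofReal (lam ^ η * A ^ (p - 2)) * ∫⁻ x, ‖f x‖ₑ ^ 2 := by
  obtain ⟨hp3, hβ0, hβ1, hβ2, hsβ⟩ := beta_facts hn hp2 hpn
  set β : ℝ := ((n : ℝ) - 1) * (p / 2 - 1) with hβ
  obtain ⟨C1, hC1⟩ := hPA n p hn (by linarith) hβ1 hβ0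
  obtain ⟨N, C4, hC4⟩ := hWP p β η hp2 hp3 hβ0 hβ1 hβ2 hη
  obtain ⟨⟨C2, hC20, hC2⟩, hGO2⟩ := hGO n hn
  obtain ⟨C3, hC30, hC3⟩ := hGO2 N
  refine ⟨C1 * C4 * Real.toNNReal (2 ^ β * (C2 + C3) ^ (p - 2)) *
    (Real.toNNReal C2 + Real.toNNReal C3), ?_⟩
  intro lam Lam L A D f hlam hLam hLL hL hA hD hLD hD64 hsupp
  have hn2 : (2 : ℝ) ≤ n := by exact_mod_cast hn
  have hlam0 : 0 < lam := by linarith
  have hLam0 : 0 < Lam := by linarith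
  have hA0 : 0 ≤ A := bcd_nonneg hA
  have hL2 : (1 : ℝ) ≤ L ^ 2 := one_le_pow₀ hL
  have hLD1 : 1 ≤ Lam * D := hL2.trans hLD
  have hLD0 : 0 < Lam * D := by linarith
  have hsL : ∀ x, f x ≠ 0 → L ^ 2 ≤ Lam * hor x := by
    intro x hx
    have h1 := (hsupp x hx).1
    have h2 : Lam * D ≤ Lam * hor x := by nlinarith
    linarith
  set A1 : ℝ := (2 * D) ^ (((n : ℝ) - 1) / 2) * A with hA1
  have hA10 : 0 ≤ A1 := by positivity
  have hAA : ∀ x, hor x ^ (((n : ℝ) - 1) / 2) * ‖f x‖ ≤ A1 := by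
    intro x
    by_cases hx : f x = 0
    · rw [hx, norm_zero, mul_zero]
      exact hA10
    · rw [hA1]
      refine mul_le_mul (Real.rpow_le_rpow (Pool.Agent.H54.LS.hor_nonneg x) (hsupp x hx).2
        (by linarith)) (hA.2.1 x) (norm_nonneg _) (by positivity)
  obtain ⟨gm, gi, gb, g2⟩ := hC2 L Lam A1 A f hL hLam0 hA hsL hAA
  obtain ⟨hb, h2b⟩ := hC3 L Lam A1 A D f hL hLam0 hA hsL hAA hLD1 (fun x hx => (hsupp x hx).1)
  set X : Sp n → ℝ≥0∞ := fun v => ∫⁻ x, ‖GT n L Lam f v x‖ₑ ^ 2 +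
    0 with hX0
  set Y : Sp n → ℝ≥0∞ := fun v => ∫⁻ x in {x : ℝ × ℝ | |x.1| ≤ D / 2}, ‖GT n L Lam f v x‖ₑ ^ 2
    with hY
  have hXe : ∀ v, X v = ∫⁻ x, ‖GT n L Lam f v x‖ₑ ^ 2 := fun v => by
    rw [hX0]
    simp only [add_zero]
  have hXm : Measurable X := by
    have h1 : Measurable fun q : Sp n × (ℝ × ℝ) => ‖GT n L Lam f q.1 q.2‖ₑ ^ 2 :=
      gm.enorm.pow_const 2
    have h2 := Measurable.lintegral_prod_right' (ν := (volume : Measure (ℝ × ℝ))) h1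
    have h3 : X = fun v => ∫⁻ x, ‖GT n L Lam f v x‖ₑ ^ 2 := funext hXe
    rw [h3]
    exact h2
  set P : ℝ≥0∞ := ENNReal.ofReal ((Lam * D) ^ N) with hP
  have hXint : ∫⁻ v : Sp n, (X v + P * Y v) ∂(sg n) ≤
      (ENNReal.ofReal C2 + ENNReal.ofReal C3) * ∫⁻ x, ‖f x‖ₑ ^ 2 := by
    rw [lintegral_add_left hXm, add_mul]
    refine add_le_add ?_ ?_
    · simp_rw [hXe]
      exact g2
    · rw [lintegral_const_mul' _ _ ENNReal.ofReal_ne_top]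
      calc P * ∫⁻ v : Sp n, Y v ∂(sg n)
          ≤ P * (ENNReal.ofReal (C3 / (Lam * D) ^ N) * ∫⁻ x, ‖f x‖ₑ ^ 2) := by
            gcongr
        _ = ENNReal.ofReal C3 * ∫⁻ x, ‖f x‖ₑ ^ 2 := by
            rw [← mul_assoc, hP, ← ENNReal.ofReal_mul (by positivity)]
            congr 2
            field_simp
  have hR : MeasurableSet {r : ℝ | 0 < r ∧ L ^ 2 ≤ Lam * r} :=
    (measurableSet_lt measurable_const measurable_id).inter
      (measurableSet_le measurable_const (measurable_id.const_mul _))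
  have hset : {x : EE (n + 1) | L ^ 2 ≤ Lam * hor x} =
      {x : EE (n + 1) | hor x ∈ {r : ℝ | 0 < r ∧ L ^ 2 ≤ Lam * r}} := by
    ext x
    simp only [mem_ofPred_eq]
    constructor
    · intro h
      refine ⟨?_, h⟩
      by_contra h0
      have h1 : hor x ≤ 0 := not_lt.1 h0
      nlinarith
    · exact fun h => h.2
  have step1 : ∀ t, ∫⁻ x in {x : EE (n + 1) | L ^ 2 ≤ Lam * hor x},
      ‖MM (mj n lam Lam t) (AL L (AL L f)) x‖ₑ ^ p ≤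
      C1 * ∫⁻ v : Sp n, ∫⁻ x : ℝ × ℝ, ‖cv (KK t lam Lam) (GT n L Lam f v) x‖ₑ ^ p *
        ENNReal.ofReal ((|x.1| + 1 / Lam) ^ (-β)) ∂volume ∂(sg n) := by
    intro t
    rw [hset]
    exact (hC1 L lam Lam t A f {r : ℝ | 0 < r ∧ L ^ 2 ≤ Lam * r} hL hlam0 hLam0 hA hsL hR
      (fun r hr => hr)).1
  have hsw := swap_int (lam := lam) (Lam := Lam) (p := p) (G := GT n L Lam f) gm
    (W := fun x => ENNReal.ofReal ((|x.1| + 1 / Lam) ^ (-β))) (W_meas Lam β)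
  have hplane : ∀ v : Sp n, ∫⁻ t in Icc (1 : ℝ) 2, ∫⁻ x : ℝ × ℝ,
      ‖cv (KK t lam Lam) (GT n L Lam f v) x‖ₑ ^ p *
        ENNReal.ofReal ((|x.1| + 1 / Lam) ^ (-β)) ≤
      C4 * ENNReal.ofReal (lam ^ η * D ^ (-β) * ((C2 + C3) * A1) ^ (p - 2)) *
        (X v + P * Y v) := by
    intro v
    refine hC4 lam Lam ((C2 + C3) * A1) D (GT n L Lam f v) (X v + P * Y v) hlam hLam hLL hLD1
      hD64 (gm.comp measurable_prodMk_left) (gi v) ?_ ?_ ?_ ?_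
    · intro x
      refine (gb v x).trans ?_
      nlinarith
    · rw [hXe]
      exact le_self_add
    · intro x hx
      refine (hb v x hx).trans ?_
      apply div_le_div_of_nonneg_right _ (by positivity)
      nlinarith
    · calc ∫⁻ x in {x : ℝ × ℝ | |x.1| ≤ D / 2}, ‖GT n L Lam f v x‖ₑ ^ 2
          = ENNReal.ofReal (1 / (Lam * D) ^ N) * (P * Y v) := by
            rw [← mul_assoc, hP, ← ENNReal.ofReal_mul (by positivity), one_div,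
              inv_mul_cancel₀ (by positivity), ENNReal.ofReal_one, one_mul]
        _ ≤ ENNReal.ofReal (1 / (Lam * D) ^ N) * (X v + P * Y v) := by
            gcongr
            exact le_add_self
  calc ∫⁻ t in Icc (1 : ℝ) 2, ∫⁻ x in {x : EE (n + 1) | L ^ 2 ≤ Lam * hor x},
      ‖MM (mj n lam Lam t) (AL L (AL L f)) x‖ₑ ^ p
      ≤ ∫⁻ t in Icc (1 : ℝ) 2, C1 * ∫⁻ v : Sp n, ∫⁻ x : ℝ × ℝ,
        ‖cv (KK t lam Lam) (GT n L Lam f v) x‖ₑ ^ p *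
        ENNReal.ofReal ((|x.1| + 1 / Lam) ^ (-β)) ∂volume ∂(sg n) := lintegral_mono step1
    _ = C1 * ∫⁻ v : Sp n, ∫⁻ t in Icc (1 : ℝ) 2,
        ∫⁻ x : ℝ × ℝ, ‖cv (KK t lam Lam) (GT n L Lam f v) x‖ₑ ^ p *
        ENNReal.ofReal ((|x.1| + 1 / Lam) ^ (-β)) ∂volume ∂volume ∂(sg n) := by
        rw [lintegral_const_mul' _ _ ENNReal.coe_ne_top, hsw]
    _ ≤ C1 * ∫⁻ v : Sp n,
        C4 * ENNReal.ofReal (lam ^ η * D ^ (-β) * ((C2 + C3) * A1) ^ (p - 2)) *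
          (X v + P * Y v) ∂(sg n) := by
        gcongr with v
        exact hplane v
    _ = C1 * (C4 * ENNReal.ofReal (lam ^ η * D ^ (-β) * ((C2 + C3) * A1) ^ (p - 2)) *
          ∫⁻ v : Sp n, (X v + P * Y v) ∂(sg n)) := by
        rw [lintegral_const_mul' _ _ (ENNReal.mul_ne_top ENNReal.coe_ne_top
          ENNReal.ofReal_ne_top)]
    _ ≤ C1 * (C4 * ENNReal.ofReal (lam ^ η * D ^ (-β) * ((C2 + C3) * A1) ^ (p - 2)) *
          ((ENNReal.ofReal C2 + ENNReal.ofReal C3) * ∫⁻ x, ‖f x‖ₑ ^ 2)) := by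
        gcongr
    _ = (C1 * C4 * (ENNReal.ofReal C2 + ENNReal.ofReal C3)) * (ENNReal.ofReal (D ^ (-β)) *
        ENNReal.ofReal (lam ^ η * ((C2 + C3) * A1) ^ (p - 2))) * ∫⁻ x, ‖f x‖ₑ ^ 2 := by
        have e1 : ENNReal.ofReal (lam ^ η * D ^ (-β) * ((C2 + C3) * A1) ^ (p - 2)) =
            ENNReal.ofReal (D ^ (-β)) *
              ENNReal.ofReal (lam ^ η * ((C2 + C3) * A1) ^ (p - 2)) := by
          rw [← ENNReal.ofReal_mul (by positivity)]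
          congr 1
          ring
        rw [e1]
        ring
    _ ≤ (C1 * C4 * (ENNReal.ofReal C2 + ENNReal.ofReal C3)) *
        ((Real.toNNReal (2 ^ β * (C2 + C3) ^ (p - 2)) : ℝ≥0∞) *
        ENNReal.ofReal (lam ^ η * A ^ (p - 2))) * ∫⁻ x, ‖f x‖ₑ ^ 2 := by
        have h9 := arith2 (D := D) (D' := 2 * D)
          (s := ((n : ℝ) - 1) / 2) (β := β) (A := A) (C2 := C2 + C3) (lam := lam) (η := η)
          (p := p) hD (by positivity) le_rfl hA0 (by positivity) hlam0 hβ0 hsβ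
        gcongr
    _ = _ := by
        push_cast
        rw [show ENNReal.ofReal C2 = (Real.toNNReal C2 : ℝ≥0∞) from rfl,
          show ENNReal.ofReal C3 = (Real.toNNReal C3 : ℝ≥0∞) from rfl]
        ring

/-! ### near the axis: summation -/

lemma int_sum_set {d : ℕ} (S : Set (EE d)) (g : ℕ → ℝ → EE d → ℝ≥0∞)
    (hg : ∀ j, Measurable fun q : ℝ × EE d => g j q.1 q.2) (N : ℕ) (c : ℝ≥0∞) (hc : c ≠ ⊤) :
    ∫⁻ t in Icc (1 : ℝ) 2, ∫⁻ x in S, c * ∑ j ∈ Finset.range N, g j t x =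
      c * ∑ j ∈ Finset.range N, ∫⁻ t in Icc (1 : ℝ) 2, ∫⁻ x in S, g j t x := by
  have h8 : ∀ t : ℝ, ∫⁻ x in S, c * ∑ j ∈ Finset.range N, g j t x =
      c * ∑ j ∈ Finset.range N, ∫⁻ x in S, g j t x := by
    intro t
    rw [lintegral_const_mul' _ _ hc, lintegral_finsetSum]
    intro j _
    have := (hg j).comp (measurable_prodMk_left (x := t))
    exact this
  simp only [h8]
  rw [lintegral_const_mul' _ _ hc, lintegral_finsetSum]
  intro j _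
  exact (hg j).lintegral_prod_right' (ν := volume.restrict S)

lemma MM_meas_cut {lam Lam p A : ℝ} {F : EE (n + 1) → ℂ} (hF : BCd A F) {R : Set ℝ}
    (hR : MeasurableSet R) : Measurable fun q : ℝ × EE (n + 1) =>
        ‖MM (mj n lam Lam q.1) (cutR R F) q.2‖ₑ ^ p :=
  (MM_meas (mj_meas n lam Lam) (fourier_meas' (bcd_int (cut_bcd hR hF)))).enorm.pow_const _

theorem near (hPA : T_PA) (hWP : T_WP) (hGO : T_GO) (hAM : T_AM) (n : ℕ) (p η : ℝ) (hn : 2 ≤ n)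
    (hp2 : 2 < p) (hpn : p ≤ 2 + 2 / (n : ℝ)) (hη : 0 < η) :
    ∃ C : ℝ≥0, ∀ (lam Lam L A : ℝ) (f : EE (n + 1) → ℂ), 1 ≤ lam → 1 ≤ Lam → Lam ≤ 4 * lam →
    1 ≤ L → L ^ 2 ≤ 8 * Lam → BCd A f →
    (∀ x, f x ≠ 0 → L ^ 2 ≤ Lam * hor x ∧ hor x ≤ 24) →
    ∫⁻ t in Icc (1 : ℝ) 2, ∫⁻ x in {x : EE (n + 1) | L ^ 2 ≤ Lam * hor x},
      ‖MM (mj n lam Lam t) (AL L (AL L f)) x‖ₑ ^ p ≤
      C * ENNReal.ofReal (lam ^ η * A ^ (p - 2)) * ∫⁻ x, ‖f x‖ₑ ^ 2 := by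
  have hp0 : 0 ≤ p := by linarith
  obtain ⟨C5, hC5⟩ := near_piece hPA hWP hGO n p (η / 2) hn hp2 hpn (by linarith)
  obtain ⟨Cc, hCc⟩ := count (η := η / 2) (q := p + 1) (by linarith) (by linarith)
  refine ⟨Cc * Real.toNNReal (48 ^ (η / 2)) * C5, ?_⟩
  intro lam Lam L A f hlam hLam hLL hL hL8 hA hsupp
  have hlam0 : 0 < lam := by linarith
  have hLam0 : 0 < Lam := by linarith
  have hA0 : 0 ≤ A := bcd_nonneg hA
  have hL2 : (1 : ℝ) ≤ L ^ 2 := one_le_pow₀ hL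
  set r0 : ℝ := L ^ 2 / Lam with hr0
  have hr00 : 0 < r0 := by positivity
  have hr08 : r0 ≤ 8 := by
    rw [hr0, div_le_iff₀ hLam0]
    exact hL8
  have hLr : Lam * r0 = L ^ 2 := by
    rw [hr0]
    field_simp
  obtain ⟨J, hJ1, hJ2⟩ := exists_nat_pow_near (x := 24 / r0) (y := (2 : ℝ))
    (by rw [le_div_iff₀ hr00]; linarith) (by norm_num)
  rw [le_div_iff₀ hr00] at hJ1
  rw [div_lt_iff₀ hr00] at hJ2
  obtain ⟨M, hM1, hM2, hM3⟩ := hCc (48 * lam) (by linarith)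
  have hJM : J ≤ M := by
    have h1 : (2 : ℝ) ^ J ≤ 2 ^ M := by
      refine le_trans ?_ hM1
      have h2 : (2 : ℝ) ^ J * (Lam * r0) ≤ 24 * Lam := by
        calc (2 : ℝ) ^ J * (Lam * r0) = (2 ^ J * r0) * Lam := by ring
          _ ≤ 24 * Lam := mul_le_mul_of_nonneg_right hJ1 hLam0.le
      rw [hLr] at h2
      have h3 : (2 : ℝ) ^ J ≤ 2 ^ J * L ^ 2 := by
        have h4 : (0 : ℝ) < 2 ^ J := by positivity
        nlinarith
      linarith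
    exact (pow_le_pow_iff_right₀ (by norm_num : (1 : ℝ) < 2)).mp h1
  have hJc : ((J : ℝ) + 1) ^ (p + 1) ≤ (Cc : ℝ) * (48 ^ (η / 2) * lam ^ (η / 2)) := by
    rw [← Real.mul_rpow (by norm_num) hlam0.le]
    refine le_trans (Real.rpow_le_rpow (by positivity) ?_ (by linarith)) hM3
    have : (J : ℝ) ≤ M := by exact_mod_cast hJM
    linarith
  have hn1 : 1 ≤ n := by omega
  set F : EE (n + 1) → ℂ := AL L (AL L f) with hF
  have hFb : BCd A F := AL_bcd hAM hn1 hL (AL_bcd hAM hn1 hL hA)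
  have hFc : ∀ R : Set ℝ, cutR R F = AL L (AL L (cutR R f)) := by
    intro R
    rw [AL_cut hAM hn1 hL R f, AL_cut hAM hn1 hL R (AL L f)]
  have hfcut : cutR (Ico r0 (2 ^ (J + 1) * r0)) f = f := by
    funext x
    unfold cutR
    by_cases h0 : f x = 0
    · by_cases hx : x ∈ {x | hor x ∈ Ico r0 ((2 : ℝ) ^ (J + 1) * r0)}
      · rw [indicator_of_mem hx]
      · rw [indicator_of_notMem hx, h0]
    · rw [indicator_of_mem]
      obtain ⟨h1, h2⟩ := hsupp x h0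
      refine ⟨?_, lt_of_le_of_lt h2 hJ2⟩
      rw [hr0, div_le_iff₀ hLam0]
      linarith
  have hdec : ∀ x, F x = ∑ j ∈ Finset.range (J + 1), cutR (shl r0 j) F x := by
    intro x
    rw [shl_sum hr00 F (J + 1) x, hFc, hfcut]
  have one : ∀ j ∈ Finset.range (J + 1),
      ∫⁻ t in Icc (1 : ℝ) 2, ∫⁻ x in {x : EE (n + 1) | L ^ 2 ≤ Lam * hor x},
        ‖MM (mj n lam Lam t) (cutR (shl r0 j) F) x‖ₑ ^ p ≤
        C5 * ENNReal.ofReal (lam ^ (η / 2) * A ^ (p - 2)) * ∫⁻ x, ‖f x‖ₑ ^ 2 := by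
    intro j hj
    have hjJ : j ≤ J := by
      have := Finset.mem_range.mp hj
      omega
    rw [hFc]
    have h2j : (1 : ℝ) ≤ 2 ^ j := one_le_pow₀ (by norm_num)
    have hj2 : (2 : ℝ) ^ j ≤ 2 ^ J := pow_le_pow_right₀ (by norm_num) hjJ
    refine (hC5 lam Lam L A (2 ^ j * r0) (cutR (shl r0 j) f) hlam hLam hLL hL
      (cut_bcd (shl_meas r0 j) hA) (by positivity) ?_ ?_ ?_).trans ?_
    · calc L ^ 2 = 1 * (Lam * r0) := by rw [hLr, one_mul]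
        _ ≤ 2 ^ j * (Lam * r0) := mul_le_mul_of_nonneg_right h2j (by positivity)
        _ = _ := by ring
    · have : (2 : ℝ) ^ j * r0 ≤ 2 ^ J * r0 := mul_le_mul_of_nonneg_right hj2 hr00.le
      linarith
    · intro x hx
      have h1 := (cut_supp hx).1
      refine ⟨h1.1, ?_⟩
      have h2 := h1.2.le
      rw [pow_succ] at h2
      linarith
    · exact mul_le_mul_right (cut_sq_le f) _
  have hsum : ∀ t x, ‖MM (mj n lam Lam t) F x‖ₑ ^ p ≤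
      ((J + 1 : ℕ) : ℝ≥0∞) ^ p * ∑ j ∈ Finset.range (J + 1),
        ‖MM (mj n lam Lam t) (cutR (shl r0 j) F) x‖ₑ ^ p := by
    intro t x
    rw [MM_sum hlam0 t hFb (J + 1) (shl r0) (shl_meas r0) hdec x]
    exact (ENNReal.rpow_le_rpow (enorm_sum_le _ _) hp0).trans
      (fin_sum_pow (by linarith) (J + 1) _)
  have hNt : ((J + 1 : ℕ) : ℝ≥0∞) ^ p ≠ ⊤ :=
    ENNReal.rpow_ne_top_of_nonneg hp0 (ENNReal.natCast_ne_top _)
  calc ∫⁻ t in Icc (1 : ℝ) 2, ∫⁻ x in {x : EE (n + 1) | L ^ 2 ≤ Lam * hor x},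
        ‖MM (mj n lam Lam t) F x‖ₑ ^ p
      ≤ ∫⁻ t in Icc (1 : ℝ) 2, ∫⁻ x in {x : EE (n + 1) | L ^ 2 ≤ Lam * hor x},
        ((J + 1 : ℕ) : ℝ≥0∞) ^ p * ∑ j ∈ Finset.range (J + 1),
        ‖MM (mj n lam Lam t) (cutR (shl r0 j) F) x‖ₑ ^ p :=
        lintegral_mono fun t => lintegral_mono fun x => hsum t x
    _ = ((J + 1 : ℕ) : ℝ≥0∞) ^ p * ∑ j ∈ Finset.range (J + 1),
        ∫⁻ t in Icc (1 : ℝ) 2, ∫⁻ x in {x : EE (n + 1) | L ^ 2 ≤ Lam * hor x},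
          ‖MM (mj n lam Lam t) (cutR (shl r0 j) F) x‖ₑ ^ p :=
        int_sum_set {x : EE (n + 1) | L ^ 2 ≤ Lam * hor x} (fun j t x =>
          ‖MM (mj n lam Lam t) (cutR (shl r0 j) F) x‖ₑ ^ p)
          (fun j => MM_meas_cut hFb (shl_meas r0 j)) (J + 1) _ hNt
    _ ≤ ((J + 1 : ℕ) : ℝ≥0∞) ^ p * ∑ j ∈ Finset.range (J + 1),
        (C5 * ENNReal.ofReal (lam ^ (η / 2) * A ^ (p - 2)) * ∫⁻ x, ‖f x‖ₑ ^ 2) := by
        gcongr with j hj
        exact one j hj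
    _ = (((J + 1 : ℕ) : ℝ≥0∞) ^ p * ((J + 1 : ℕ) : ℝ≥0∞)) *
        (C5 * ENNReal.ofReal (lam ^ (η / 2) * A ^ (p - 2)) * ∫⁻ x, ‖f x‖ₑ ^ 2) := by
        rw [Finset.sum_const, Finset.card_range, nsmul_eq_mul]
        ring
    _ ≤ ((Cc * Real.toNNReal (48 ^ (η / 2)) : ℝ≥0) * ENNReal.ofReal (lam ^ (η / 2))) *
        (C5 * ENNReal.ofReal (lam ^ (η / 2) * A ^ (p - 2)) * ∫⁻ x, ‖f x‖ₑ ^ 2) := by
        refine mul_le_mul_left ?_ _
        have h9 : ((J + 1 : ℕ) : ℝ≥0∞) ^ p * ((J + 1 : ℕ) : ℝ≥0∞) =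
            ENNReal.ofReal (((J : ℝ) + 1) ^ (p + 1)) := by
          have h10 : ((J + 1 : ℕ) : ℝ≥0∞) = ENNReal.ofReal ((J : ℝ) + 1) := by
            rw [← ENNReal.ofReal_natCast]
            push_cast
            rfl
          rw [h10, ENNReal.ofReal_rpow_of_pos (by positivity), ← ENNReal.ofReal_mul (by positivity),
            Real.rpow_add_one (by positivity)]
        rw [h9]
        have h11 : ((Cc * Real.toNNReal (48 ^ (η / 2)) : ℝ≥0) : ℝ≥0∞) *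
            ENNReal.ofReal (lam ^ (η / 2)) =
            ENNReal.ofReal ((Cc : ℝ) * (48 ^ (η / 2) * lam ^ (η / 2))) := by
          rw [ENNReal.ofReal_mul (by positivity), ENNReal.ofReal_mul (by positivity),
            ENNReal.ofReal_coe_nnreal]
          push_cast
          rw [mul_assoc]
          rfl
        rw [h11]
        exact ENNReal.ofReal_le_ofReal hJc
    _ = (Cc * Real.toNNReal (48 ^ (η / 2)) * C5 : ℝ≥0) *
        ENNReal.ofReal (lam ^ η * A ^ (p - 2)) * ∫⁻ x, ‖f x‖ₑ ^ 2 := by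
        have h12 : ENNReal.ofReal (lam ^ η * A ^ (p - 2)) =
            ENNReal.ofReal (lam ^ (η / 2)) *
              ENNReal.ofReal (lam ^ (η / 2) * A ^ (p - 2)) := by
          rw [← ENNReal.ofReal_mul (by positivity)]
          congr 1
          rw [← mul_assoc, ← Real.rpow_add hlam0]
          congr 2
          ring
        rw [h12]
        push_cast
        ring

/-- PG -/
theorem pf_pg (hPA : T_PA) (hWP : T_WP) (hS : T_S2D) (hGO : T_GO) (hAM : T_AM) : T_PG := by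
  intro n p η hn hp2 hpn hη
  obtain ⟨Ca, hCa⟩ := near hPA hWP hGO hAM n p η hn hp2 hpn hη
  obtain ⟨Cb, hCb⟩ := far hPA hS hGO n p η hn hp2 hpn hη
  refine ⟨Ca + Cb, ?_⟩
  intro lam Lam L A f hlam hLam hLL hL hL8 hA
  constructor
  · intro hsupp
    refine (hCa lam Lam L A f hlam hLam hLL hL hL8 hA hsupp).trans ?_
    push_cast
    gcongr
    exact le_self_add
  · intro i hi hsupp
    refine (hCb lam Lam L A f hlam hLam hLL hL hL8 hA i hi hsupp).trans ?_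
    push_cast
    gcongr
    exact le_add_self

end Pool.Agent.H35.BR
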