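import Pool.Agent.H84.B2.Targets

set_option autoImplicit false

namespace Pool.Agent.H35.BR

open MeasureTheory Set FourierTransform LineDeriv
open Pool.Agent.H84.B2 Pool.Agent.H84.BR Pool.Agent.H83.AR Pool.Agent.H93.AR Pool.Agent.H83.LS
open Pool.Agent.H54.LS Pool.Agent.H14.LS
open scoped ENNReal NNReal SchwartzMap

/-- coordinate vector -/
noncomputable abbrev vv {d : ℕ} (i : Fin d) : EE d := EuclideanSpace.single i (1 : ℝ)

theorem inner_vv {d : ℕ} (i : Fin d) (x : EE d) : inner ℝ x (vv i) = x i := by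
  simp [vv, EuclideanSpace.inner_single_right]

theorem tg_coord {d : ℕ} (i : Fin d) :
    (fun x : EE d => inner ℝ x (vv i)).HasTemperateGrowth :=
  ((innerSL ℝ).flip (vv i)).hasTemperateGrowth

/-- the generator on Schwartz functions -/
noncomputable def RR {d : ℕ} (i j : Fin d) (f : 𝓢(EE d, ℂ)) : 𝓢(EE d, ℂ) :=
  SchwartzMap.smulLeftCLM ℂ (fun x : EE d => inner ℝ x (vv i)) (∂_{vv j} f) -
    SchwartzMap.smulLeftCLM ℂ (fun x : EE d => inner ℝ x (vv j)) (∂_{vv i} f)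

theorem RR_apply {d : ℕ} (i j : Fin d) (f : 𝓢(EE d, ℂ)) (x : EE d) :
    RR i j f x = rotd i j f x := by
  unfold RR rotd
  rw [sub_apply, SchwartzMap.smulLeftCLM_apply_apply (tg_coord i),
    SchwartzMap.smulLeftCLM_apply_apply (tg_coord j), inner_vv, inner_vv,
    SchwartzMap.lineDerivOp_apply_eq_fderiv, SchwartzMap.lineDerivOp_apply_eq_fderiv]
  simp only [Complex.real_smul]

theorem RR_coe {d : ℕ} (i j : Fin d) (f : 𝓢(EE d, ℂ)) :
    (RR i j f : EE d → ℂ) = rotd i j f := funext (RR_apply i j f)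

/-- derivative of a coordinate times a function -/
theorem fderiv_coord_mul {d : ℕ} (i j : Fin d) (u : 𝓢(EE d, ℂ)) (x : EE d) :
    fderiv ℝ (SchwartzMap.smulLeftCLM ℂ (fun x : EE d => inner ℝ x (vv j)) u) x (vv i) =
      ((x j : ℝ) : ℂ) * fderiv ℝ u x (vv i) + (if i = j then 1 else 0) * u x := by
  have h1 : (SchwartzMap.smulLeftCLM ℂ (fun x : EE d => inner ℝ x (vv j)) u :
      EE d → ℂ) = fun x => (inner ℝ x (vv j)) • u x :=
    SchwartzMap.smulLeftCLM_apply (tg_coord j) u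
  rw [h1]
  have h2 : HasFDerivAt (fun x : EE d => inner ℝ x (vv j))
      ((innerSL ℝ).flip (vv j)) x := ((innerSL ℝ).flip (vv j)).hasFDerivAt
  have h3 : HasFDerivAt (fun x : EE d => inner ℝ x (vv j) • u x) _ x :=
    h2.smul (u.hasFDerivAt x)
  rw [h3.fderiv]
  simp only [add_apply, smul_apply,
    ContinuousLinearMap.smulRight_apply, Complex.real_smul, inner_vv]
  have h4 : ((innerSL ℝ).flip (vv j)) (vv i) = if i = j then 1 else 0 := by
    change inner ℝ (vv i) (vv j) = _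
    rw [inner_vv]
    by_cases h : i = j
    · simp [h, vv]
    · have : ¬ j = i := fun h' => h h'.symm
      simp [h, vv, this]
  rw [h4]
  split_ifs <;> simp

theorem fourier_RR {d : ℕ} (i j : Fin d) (f : 𝓢(EE d, ℂ)) :
    𝓕 (RR i j f) = RR i j (𝓕 f) := by
  have hpi : (2 * Real.pi * Complex.I : ℂ) ≠ 0 := by
    simp [Real.pi_ne_zero, Complex.I_ne_zero]
  have key : ∀ a b : Fin d, 𝓕 (SchwartzMap.smulLeftCLM ℂ (fun x : EE d => inner ℝ x (vv a))
      (∂_{vv b} f)) = -∂_{vv a} (SchwartzMap.smulLeftCLM ℂ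
        (fun x : EE d => inner ℝ x (vv b)) (𝓕 f)) := by
    intro a b
    have h1 := SchwartzMap.lineDerivOp_fourier_eq (∂_{vv b} f) (vv a)
    rw [SchwartzMap.fourier_lineDerivOp_eq, FourierTransform.fourier_smul, lineDerivOp_smul] at h1
    have h2 : (2 * Real.pi * Complex.I : ℂ) • (∂_{vv a} (SchwartzMap.smulLeftCLM ℂ
        (fun x : EE d => inner ℝ x (vv b)) (𝓕 f)) + 𝓕 (SchwartzMap.smulLeftCLM ℂ
        (fun x : EE d => inner ℝ x (vv a)) (∂_{vv b} f))) = 0 := by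
      rw [smul_add, h1]
      simp
    have h3 := (smul_eq_zero.1 h2).resolve_left hpi
    exact eq_neg_of_add_eq_zero_right h3
  have h4 : 𝓕 (RR i j f) = 𝓕 (SchwartzMap.smulLeftCLM ℂ
      (fun x : EE d => inner ℝ x (vv i)) (∂_{vv j} f)) - 𝓕 (SchwartzMap.smulLeftCLM ℂ
      (fun x : EE d => inner ℝ x (vv j)) (∂_{vv i} f)) := by
    unfold RR
    rw [sub_eq_add_neg, FourierTransform.fourier_add, sub_eq_add_neg]
    congr 1
    simp
  rw [h4, key, key]
  ext x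
  rw [RR_apply]
  unfold rotd
  rw [sub_apply, neg_apply, neg_apply,
    SchwartzMap.lineDerivOp_apply_eq_fderiv, SchwartzMap.lineDerivOp_apply_eq_fderiv,
    fderiv_coord_mul, fderiv_coord_mul]
  by_cases h : i = j
  · subst h; ring
  · have h' : ¬ j = i := fun h' => h h'.symm
    rw [if_neg h, if_neg h']
    ring

theorem RR_mul {d : ℕ} (i j : Fin d) (μ : EE d → ℂ) (hμ : μ.HasTemperateGrowth)
    (h0 : ∀ ξ, rotd i j μ ξ = 0) (u : 𝓢(EE d, ℂ)) :
    RR i j (SchwartzMap.smulLeftCLM ℂ μ u) = SchwartzMap.smulLeftCLM ℂ μ (RR i j u) := by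
  ext x
  rw [RR_apply, SchwartzMap.smulLeftCLM_apply_apply hμ, RR_apply]
  unfold rotd
  have h1 : (SchwartzMap.smulLeftCLM ℂ μ u : EE d → ℂ) = fun x => μ x • u x :=
    SchwartzMap.smulLeftCLM_apply hμ u
  have h2 : DifferentiableAt ℝ μ x := (hμ.1.differentiable (by simp)).differentiableAt
  have h3 := h2.hasFDerivAt.mul (u.hasFDerivAt x)
  have h4 : ∀ m : EE d, fderiv ℝ (SchwartzMap.smulLeftCLM ℂ μ u) x m =
      μ x * fderiv ℝ u x m + fderiv ℝ μ x m * u x := by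
    intro m
    rw [h1]
    have h5 : HasFDerivAt (fun x => μ x • u x) (μ x • fderiv ℝ u x + u x • fderiv ℝ μ x) x := h3
    rw [h5.fderiv]
    simp only [add_apply, smul_apply, smul_eq_mul]
    ring
  rw [h4, h4]
  have h6 := h0 x
  unfold rotd at h6
  rw [smul_eq_mul]
  linear_combination (u x) * h6

theorem pf_rot2 : T_ROT2 := by
  intro d f i j
  refine ⟨⟨RR i j f, fun x => by rw [RR_coe]⟩, fun ξ => ?_, fun μ hμ h0 => ?_⟩
  · rw [← RR_coe, ← SchwartzMap.fourier_coe, fourier_RR, RR_coe]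
    rfl
  · have hg : ∀ u : 𝓢(EE d, ℂ), ∀ x, (𝓕⁻ (SchwartzMap.smulLeftCLM ℂ μ (𝓕 u)) :
        𝓢(EE d, ℂ)) x = 𝓕⁻ (fun ξ => μ ξ * 𝓕 (u : EE d → ℂ) ξ) x := by
      intro u x
      rw [SchwartzMap.fourierInv_coe, SchwartzMap.smulLeftCLM_apply hμ]
      rfl
    refine ⟨⟨_, hg f⟩, fun x => ?_⟩
    have h1 : (fun x => 𝓕⁻ (fun ξ => μ ξ * 𝓕 (f : EE d → ℂ) ξ) x) =
        ((𝓕⁻ (SchwartzMap.smulLeftCLM ℂ μ (𝓕 f)) : 𝓢(EE d, ℂ)) : EE d → ℂ) :=
      funext fun x => (hg f x).symm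
    rw [h1, ← RR_coe, ← RR_coe, ← hg (RR i j f)]
    congr 1
    have h2 : 𝓕 (RR i j (𝓕⁻ (SchwartzMap.smulLeftCLM ℂ μ (𝓕 f)) : 𝓢(EE d, ℂ))) =
        SchwartzMap.smulLeftCLM ℂ μ (𝓕 (RR i j f)) := by
      rw [fourier_RR, FourierTransform.fourier_fourierInv_eq, RR_mul i j μ hμ h0, fourier_RR]
    rw [← h2, FourierTransform.fourierInv_fourier_eq]

end Pool.Agent.H35.BR
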