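import Pool.Agent.H83.AR.Targets2
import Pool.Agent.H57.LS.PC1

/-!
# ST2: slabs in both variables for functions concentrated away from `x₁ = 0`
-/

set_option autoImplicit false

namespace Pool.Agent.H35.BR

open MeasureTheory Set FourierTransform Filter
open Pool.Agent.H83.AR Pool.Agent.H93.AR Pool.Agent.H83.LS Pool.Agent.H54.LS Pool.Agent.H14.LS
open scoped ENNReal NNReal

attribute [local irreducible] KK cv KK2 cy

/-- the far part at a fixed time, for an arbitrary function with decay -/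
lemma far_gen (hKL : T_KL1) (hY : T_YG) (p η : ℝ) (hp : 2 < p) (hp3 : p ≤ 3) (hη : 0 < η) (N : ℕ)
    (hN' : 5 ≤ N * η) : ∃ C : ℝ, 0 ≤ C ∧ ∀ (lam Lam A D δ t : ℝ) (g : ℝ × ℝ → ℂ) (X : ℝ≥0∞),
    1 ≤ lam → 0 < Lam → Lam ≤ 4 * lam → 0 < D → 4 * lam ^ η ≤ Lam * D →
    16000 * Lam ≤ D * lam → 0 ≤ t → t ≤ 2 → δ ≤ D / 16 → Measurable g → (∀ x, ‖g x‖ ≤ A) →
    ∫⁻ x, ‖g x‖ₑ ^ 2 ≤ X → (∀ x : ℝ × ℝ, |x.1| ≤ D / 2 → ‖g x‖ ≤ A / (Lam * D) ^ N) →
    ∫⁻ x in {x : ℝ × ℝ | |x.1| ≤ D / 2}, ‖g x‖ₑ ^ 2 ≤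
      ENNReal.ofReal (1 / (Lam * D) ^ N) * X →
    ∫⁻ x in {x : ℝ × ℝ | |x.1| ≤ δ}, ‖cv (KK t lam Lam) g x‖ₑ ^ p ≤
      ENNReal.ofReal (C * (lam⁻¹ * A ^ (p - 2))) * X := by
  obtain ⟨C1, hC1⟩ := hKL.1
  obtain ⟨C2, hC2⟩ := hKL.2 N
  refine ⟨2 ^ (p - 1) * ((C1 : ℝ) ^ p + (C2 : ℝ) ^ p), by positivity, ?_⟩
  intro lam Lam A D δ t g X hlam hLam hLl hD hLD hal ht0 ht2 hδ g1 g3 g4 g5 g6
  have hA : 0 ≤ A := (norm_nonneg _).trans (g3 0)
  have hlam0 : 0 < lam := by linarith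
  have hlη : 1 ≤ lam ^ η := Real.one_le_rpow hlam hη.le
  have hLD1 : 1 ≤ Lam * D := by linarith
  have hKm : Measurable (KK t lam Lam) :=
    (Pool.Agent.H57.LS.measurable_KK lam Lam).comp (f := fun x : ℝ × ℝ => (t, x)) (by fun_prop)
  set S' : Set (ℝ × ℝ) := {x : ℝ × ℝ | |x.1| ≤ D / 2} with hS'
  have hS'm : MeasurableSet S' := Pool.Agent.H57.LS.measurableSet_slab _
  set T : Set (ℝ × ℝ) := {x : ℝ × ℝ | D / 4 ≤ |x.1|} with hT
  have hTm : MeasurableSet T := measurableSet_le (by fun_prop) (by fun_prop)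
  have hmain := Pool.Agent.H57.LS.cv_young2 hY (KK t lam Lam) g {x : ℝ × ℝ | |x.1| ≤ δ}
    (Pool.Agent.H57.LS.measurableSet_slab δ) (fun x => ‖KK t lam Lam x‖ₑ)
    (T.indicator (fun x => ‖KK t lam Lam x‖ₑ))
    (S'.indicator (fun y => ‖g y‖ₑ)) (fun y => ‖g y‖ₑ) hKm.enorm
    (hKm.enorm.indicator hTm) (g1.enorm.indicator hS'm) g1.enorm p (by linarith) ?_
  swap
  · intro x hx y
    rw [mem_ofPred_eq] at hx
    by_cases hy : y ∈ S'
    · rw [indicator_of_mem hy]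
      exact le_self_add
    · have h1 : D / 2 < |y.1| := by
        rw [hS', mem_ofPred_eq, not_le] at hy; exact hy
      have h2 : x - y ∈ T := by
        rw [hT, mem_ofPred_eq, Prod.fst_sub]
        have := abs_sub_abs_le_abs_sub y.1 x.1
        rw [abs_sub_comm] at this
        linarith
      rw [indicator_of_mem h2]
      exact le_add_self
  -- L¹ norms
  have k1 : ∫⁻ x, ‖KK t lam Lam x‖ₑ ≤ ENNReal.ofReal (C1 * lam ^ (1 / 2 : ℝ)) := by
    refine (hC1 lam Lam t hlam hLam hLl ht0 ht2).trans (le_of_eq ?_)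
    rw [ENNReal.ofReal_mul (by positivity), ENNReal.ofReal_coe_nnreal, Real.sqrt_eq_rpow]
  have hmin : lam ^ (η / 2) ≤ min (Real.sqrt lam) Lam * (D / 4) := by
    have h0 : lam ^ (η / 2) ≤ lam ^ η :=
      Real.rpow_le_rpow_of_exponent_le hlam (by linarith)
    rcases min_choice (Real.sqrt lam) Lam with h | h
    · rw [h]
      have h1 : (lam ^ (η / 2)) ^ 2 ≤ (Real.sqrt lam * (D / 4)) ^ 2 := by
        rw [mul_pow, Real.sq_sqrt hlam0.le, ← Real.rpow_natCast, ← Real.rpow_mul hlam0.le]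
        have : η / 2 * ((2 : ℕ) : ℝ) = η := by push_cast; ring
        rw [this]
        have h2 : D * (16000 * Lam) ≤ D * (D * lam) := by gcongr
        nlinarith
      exact (pow_le_pow_iff_left₀ (by positivity) (by positivity) two_ne_zero).1 h1
    · rw [h]
      linarith
  have hmin1 : 1 ≤ min (Real.sqrt lam) Lam * (D / 4) :=
    (Real.one_le_rpow hlam (by positivity)).trans hmin
  have k2 : ∫⁻ x, T.indicator (fun x => ‖KK t lam Lam x‖ₑ) x ≤
      ENNReal.ofReal (C2 * lam ^ (-(1 / 2) : ℝ)) := by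
    rw [lintegral_indicator hTm]
    refine (hC2 lam Lam t (D / 4) hlam hLam hLl ht0 ht2 ?_ hmin1).trans ?_
    · rw [div_le_iff₀ hlam0]; linarith
    · rw [ENNReal.ofReal_mul (by positivity), ENNReal.ofReal_coe_nnreal]
      gcongr
      rw [div_le_iff₀ (by positivity)]
      have h3 : lam ^ (1 : ℝ) ≤ (min (Real.sqrt lam) Lam * (D / 4)) ^ N := by
        calc lam ^ (1 : ℝ) ≤ lam ^ (η / 2 * N) :=
              Real.rpow_le_rpow_of_exponent_le hlam (by linarith)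
          _ = (lam ^ (η / 2)) ^ N := by rw [Real.rpow_mul hlam0.le, Real.rpow_natCast]
          _ ≤ _ := pow_le_pow_left₀ (by positivity) hmin N
      calc Real.sqrt lam = lam ^ (-(1 / 2) : ℝ) * lam ^ (1 : ℝ) := by
            rw [← Real.rpow_add hlam0, Real.sqrt_eq_rpow]; norm_num
        _ ≤ _ := by gcongr
  -- Lᵖ norms
  have l1 : ∫⁻ y, (S'.indicator (fun y => ‖g y‖ₑ) y) ^ p ≤
      ENNReal.ofReal (lam ^ (-(5 / 2) : ℝ) * A ^ (p - 2)) * X := by
    have h1 : ∀ y, (S'.indicator (fun y => ‖g y‖ₑ) y) ^ p =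
        S'.indicator (fun y => ‖g y‖ₑ ^ p) y := by
      intro y
      by_cases hy : y ∈ S'
      · rw [indicator_of_mem hy, indicator_of_mem hy]
      · rw [indicator_of_notMem hy, indicator_of_notMem hy, ENNReal.zero_rpow_of_pos (by linarith)]
    simp only [h1]
    rw [lintegral_indicator hS'm]
    have hM : ∀ y ∈ S', ‖g y‖ ≤ A := fun y _ => g3 y
    refine (Pool.Agent.H57.LS.lp_le_l2' _ S' hS'm A p hp.le hM hA).trans ?_
    have h2 : 1 / (Lam * D) ^ N ≤ lam ^ (-(5 / 2) : ℝ) := by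
      rw [one_div, Real.rpow_neg hlam0.le]
      apply inv_anti₀ (by positivity)
      calc lam ^ (5 / 2 : ℝ) ≤ lam ^ (η * N) :=
            Real.rpow_le_rpow_of_exponent_le hlam (by linarith)
        _ = (lam ^ η) ^ N := by rw [Real.rpow_mul hlam0.le, Real.rpow_natCast]
        _ ≤ _ := pow_le_pow_left₀ (by positivity) (by linarith) N
    calc ENNReal.ofReal (A ^ (p - 2)) * ∫⁻ y in S', ‖g y‖ₑ ^ 2
        ≤ ENNReal.ofReal (A ^ (p - 2)) * (ENNReal.ofReal (lam ^ (-(5 / 2) : ℝ)) * X) := by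
          gcongr
          exact g6.trans (by gcongr)
      _ = _ := by
          rw [← mul_assoc, ← ENNReal.ofReal_mul (by positivity)]
          congr 2; ring
  have l2' : ∫⁻ y, ‖g y‖ₑ ^ p ≤ ENNReal.ofReal (A ^ (p - 2)) * X := by
    refine (Pool.Agent.H57.LS.lp_le_l2 _ A p hp.le g3 hA).trans ?_
    gcongr
  refine hmain.trans ?_
  have hA' : 0 ≤ A ^ (p - 2) := by positivity
  calc (2 : ℝ≥0∞) ^ (p - 1) * ((∫⁻ y, ‖KK t lam Lam y‖ₑ) ^ p *
        (∫⁻ y, (S'.indicator (fun y => ‖g y‖ₑ) y) ^ p) +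
        (∫⁻ y, T.indicator (fun x => ‖KK t lam Lam x‖ₑ) y) ^ p * (∫⁻ y, ‖g y‖ₑ ^ p))
      ≤ ENNReal.ofReal (2 ^ (p - 1)) * (ENNReal.ofReal (C1 * lam ^ (1 / 2 : ℝ)) ^ p *
        (ENNReal.ofReal (lam ^ (-(5 / 2) : ℝ) * A ^ (p - 2)) * X) +
          ENNReal.ofReal (C2 * lam ^ (-(1 / 2) : ℝ)) ^ p *
          (ENNReal.ofReal (A ^ (p - 2)) * X)) := by
        rw [← ENNReal.ofReal_rpow_of_nonneg (by norm_num) (by linarith),
          show ENNReal.ofReal 2 = 2 by norm_num]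
        gcongr
    _ = ENNReal.ofReal (2 ^ (p - 1) * ((C1 * lam ^ (1 / 2 : ℝ)) ^ p *
          (lam ^ (-(5 / 2) : ℝ) * A ^ (p - 2)) +
          (C2 * lam ^ (-(1 / 2) : ℝ)) ^ p * (A ^ (p - 2)))) * X := by
        rw [ENNReal.ofReal_rpow_of_nonneg (by positivity) (by linarith),
          ENNReal.ofReal_rpow_of_nonneg (by positivity) (by linarith),
          ENNReal.ofReal_mul (p := (2 : ℝ) ^ (p - 1)) (by positivity),
          ENNReal.ofReal_add (by positivity) (by positivity),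
          ENNReal.ofReal_mul (p := (C1 * lam ^ (1 / 2 : ℝ)) ^ p) (by positivity),
          ENNReal.ofReal_mul (p := (C2 * lam ^ (-(1 / 2) : ℝ)) ^ p) (by positivity)]
        ring
    _ ≤ _ := by
        refine mul_le_mul' (ENNReal.ofReal_le_ofReal ?_) le_rfl
        have h1 : (C1 * lam ^ (1 / 2 : ℝ)) ^ p * lam ^ (-(5 / 2) : ℝ) ≤ (C1 : ℝ) ^ p * lam⁻¹ := by
          rw [Real.mul_rpow (by positivity) (by positivity), mul_assoc, ← Real.rpow_mul hlam0.le,
            ← Real.rpow_add hlam0, ← Real.rpow_neg_one lam]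
          gcongr
          linarith
        have h2 : (C2 * lam ^ (-(1 / 2) : ℝ)) ^ p ≤ (C2 : ℝ) ^ p * lam⁻¹ := by
          rw [Real.mul_rpow (by positivity) (by positivity), ← Real.rpow_mul hlam0.le,
            ← Real.rpow_neg_one lam]
          gcongr
          linarith
        calc 2 ^ (p - 1) * ((C1 * lam ^ (1 / 2 : ℝ)) ^ p *
            (lam ^ (-(5 / 2) : ℝ) * A ^ (p - 2)) +
            (C2 * lam ^ (-(1 / 2) : ℝ)) ^ p * (A ^ (p - 2)))
            = 2 ^ (p - 1) * (((C1 * lam ^ (1 / 2 : ℝ)) ^ p * lam ^ (-(5 / 2) : ℝ)) *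
            (A ^ (p - 2)) +
            (C2 * lam ^ (-(1 / 2) : ℝ)) ^ p * (A ^ (p - 2))) := by ring
          _ ≤ 2 ^ (p - 1) * (((C1 : ℝ) ^ p * lam⁻¹) * (A ^ (p - 2)) +
            ((C2 : ℝ) ^ p * lam⁻¹) * (A ^ (p - 2))) := by gcongr
          _ = _ := by ring

/-- arithmetic of the minimum -/
lemma min_arith {m a b β γ s : ℝ} (hm : 0 < m) (hm1 : m ≤ 1) (ha : m ≤ a) (hb : m ≤ b)
    (hβ : 0 ≤ β) (hγ : 0 ≤ γ) (hs : β + γ ≤ s) : m ^ s ≤ a ^ β * b ^ γ := by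
  calc m ^ s ≤ m ^ (β + γ) := Real.rpow_le_rpow_of_exponent_ge hm hm1 hs
    _ = m ^ β * m ^ γ := Real.rpow_add hm _ _
    _ ≤ a ^ β * b ^ γ := by
        apply mul_le_mul (Real.rpow_le_rpow hm.le ha hβ) (Real.rpow_le_rpow hm.le hb hγ)
          (by positivity)
        exact Real.rpow_nonneg (hm.le.trans ha) _

/-- the consequence of S22 for the intersection of two slabs -/
lemma slab2 (hS : T_S22) (p η : ℝ) (hp : 2 < p) (hp3 : p ≤ 3) (hη : 0 < η) :
    ∃ C : ℝ, 0 ≤ C ∧ ∀ (lam Lam M A δ ε : ℝ) (g : ℝ × ℝ → ℂ) (X : ℝ≥0∞),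
    1 ≤ lam → 0 < Lam → Lam ≤ 4 * lam → 0 < M → M ≤ 4 * lam → Measurable g → Integrable g →
    (∀ x, ‖g x‖ ≤ A) → ∫⁻ x, ‖g x‖ₑ ^ 2 ≤ X → 0 < δ → 0 < ε →
    ∀ c : ℝ, (min 1 (min (δ * lam / Lam) (ε * lam / M))) ^ (2 - p / 2) ≤ c →
    ∫⁻ t in Icc (1 : ℝ) 2, ∫⁻ x in {x : ℝ × ℝ | |x.1| ≤ δ ∧ |x.2| ≤ ε},
      ‖cv (KK2 t lam Lam M) g x‖ₑ ^ p ≤
      ENNReal.ofReal (C * (lam ^ η * c * A ^ (p - 2))) * X := by
  obtain ⟨C, hC⟩ := hS p η hp hp3 hη
  refine ⟨C, C.2, ?_⟩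
  intro lam Lam M A δ ε g X hlam hLam hLl hM hMl g1 g2 g3 g4 hδ hε c hc
  have hA : 0 ≤ A := (norm_nonneg _).trans (g3 0)
  have hlam0 : 0 < lam := by linarith
  obtain ⟨h1, h2, h3⟩ := hC lam Lam M g A hlam hLam hLl hM hMl g1 g2 g3
  have fin : ∀ q : ℝ, 0 ≤ q → q ≤ c →
      C * ENNReal.ofReal (lam ^ η * q * A ^ (p - 2)) * ∫⁻ y, ‖g y‖ₑ ^ 2 ≤
      ENNReal.ofReal (C * (lam ^ η * c * A ^ (p - 2))) * X := by
    intro q hq hqc
    rw [ENNReal.ofReal_mul (p := (C : ℝ)) (by positivity), ENNReal.ofReal_coe_nnreal]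
    have : lam ^ η * q * A ^ (p - 2) ≤ lam ^ η * c * A ^ (p - 2) := by gcongr
    gcongr
  rcases min_choice 1 (min (δ * lam / Lam) (ε * lam / M)) with h | h
  · rw [h, Real.one_rpow] at hc
    refine le_trans (lintegral_mono fun t => setLIntegral_le_lintegral _ _) (h1.trans ?_)
    have := fin 1 (by norm_num) hc
    rwa [mul_one] at this
  · rw [h] at hc
    rcases min_choice (δ * lam / Lam) (ε * lam / M) with h' | h'
    · rw [h'] at hc
      refine le_trans (lintegral_mono fun t => lintegral_mono_set ?_) ((h2 δ hδ).trans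
        (fin _ (by positivity) hc))
      exact fun x hx => hx.1
    · rw [h'] at hc
      refine le_trans (lintegral_mono fun t => lintegral_mono_set ?_) ((h3 ε hε).trans
        (fin _ (by positivity) hc))
      exact fun x hx => hx.2

lemma ax1 {Lam D δ : ℝ} (hLam0 : 0 < Lam) (hD : 0 < D) (h : 1 / Lam ≤ δ) :
    1 / (Lam * D) ≤ δ / D := by
  rw [← div_div]
  exact div_le_div_of_nonneg_right h hD.le

lemma ax2 {lam Lam D δ : ℝ} (hLam0 : 0 < Lam) (hD : 0 < D) (hδ : 0 < δ)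
    (h2 : D * lam ≤ 16000 * Lam) : δ * lam / Lam ≤ 16000 * (δ / D) := by
  rw [← mul_div_assoc, div_le_div_iff₀ hLam0 hD]
  calc δ * lam * D = δ * (D * lam) := by ring
    _ ≤ δ * (16000 * Lam) := mul_le_mul_of_nonneg_left h2 hδ.le
    _ = _ := by ring

lemma ax3 {lam Lam D : ℝ} (hlam0 : 0 < lam) (hLam0 : 0 < Lam) (hD : 0 < D)
    (hLl : Lam ≤ 4 * lam) (hD64 : D ≤ 64) : 1 / (256 * lam) ≤ 1 / (Lam * D) := by
  apply one_div_le_one_div_of_le (by positivity)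
  calc Lam * D ≤ (4 * lam) * 64 := mul_le_mul hLl hD64 hD.le (by positivity)
    _ = _ := by ring

lemma ax4 {lam M ε : ℝ} (hlam : 1 ≤ lam) (hM : 1 ≤ M) (hMl : M ≤ 4 * lam) (hε : 1 / M ≤ ε) :
    1 / (256 * lam) ≤ ε * lam / M := by
  have hM0 : 0 < M := by linarith
  have h1 : 1 / M * lam / M ≤ ε * lam / M := by
    apply div_le_div_of_nonneg_right _ hM0.le
    exact mul_le_mul_of_nonneg_right hε (by linarith)
  refine le_trans ?_ h1
  rw [div_mul_eq_mul_div, one_mul, div_div, div_le_div_iff₀ (by positivity) (by positivity)]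
  have h2 : M * M ≤ (4 * lam) * (4 * lam) := mul_le_mul hMl hMl hM0.le (by positivity)
  nlinarith

lemma ax5 {C1 l' l ub bg : ℝ} (hC1 : 0 ≤ C1) (h : l' ≤ 4 * (l * ub)) (hbg : 0 ≤ bg)
    (hl : 0 ≤ l) (hub : 0 ≤ ub) : C1 * (l' * bg) ≤ 16000 * C1 * (l * ub * bg) := by
  have h1 : l' * bg ≤ 4 * (l * ub) * bg := mul_le_mul_of_nonneg_right h hbg
  have h2 := mul_le_mul_of_nonneg_left h1 hC1
  have h3 : 0 ≤ C1 * (l * ub * bg) := by positivity
  linarith

lemma ax6 {C1 K q li : ℝ} (h : li ≤ 256 * q) (hK : 0 ≤ K) (hC1 : 0 ≤ C1) (hq : 0 ≤ q) :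
    K * li ≤ (16000 * C1 + 256 * K) * q := by
  have h1 := mul_le_mul_of_nonneg_left h hK
  have h3 : 0 ≤ C1 * q := by positivity
  linarith

lemma ax7 {l' l ub : ℝ} (h4 : 1 / (4 * l') ≤ ub) (hl' : 0 < l') (hl : l' * l' ≤ l)
    (hub : 0 ≤ ub) : l' ≤ 4 * (l * ub) := by
  rw [div_le_iff₀ (by positivity)] at h4
  have h7 : l' * 1 ≤ l' * (ub * (4 * l')) := mul_le_mul_of_nonneg_left h4 hl'.le
  have h9 : (l' * l') * ub ≤ l * ub := mul_le_mul_of_nonneg_right hl hub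
  linarith

theorem pf_st2 (hS : T_S22) (hCY : T_CY) (hKL : T_KL1) (hYG : T_YG) : T_ST2 := by
  intro p β γ η hp hp3 hβ hβ1 hγ hβγ hη
  set η' : ℝ := η / 4 with hη'
  have hη'0 : 0 < η' := by positivity
  obtain ⟨N, hN⟩ := exists_nat_ge (5 / η')
  have hN' : 5 ≤ N * η' := by
    rw [div_le_iff₀ hη'0] at hN; exact hN
  obtain ⟨C1, hC10, hC1⟩ := slab2 hS p η' hp hp3 hη'0
  obtain ⟨C2, hC20, hC2⟩ := far_gen hKL hYG p η' hp hp3 hη'0 N hN'
  obtain ⟨C3, hC30, hC3⟩ := hCY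
  refine ⟨N, 16000 * C1 + 256 * (C2 * C3 ^ (p - 2) * C3), by positivity, ?_⟩
  intro lam Lam M A D δ ε g X hlam hLam hLl hM hMl hD hD64 g1 g2 g3 g4 hdec hδ1 hδ2 hε
  have hA : 0 ≤ A := (norm_nonneg _).trans (g3 0)
  have hA' : 0 ≤ A ^ (p - 2) := by positivity
  have hlam0 : 0 < lam := by linarith
  have hLam0 : 0 < Lam := by linarith
  have hM0 : 0 < M := by linarith
  have hδ0 : 0 < δ := lt_of_lt_of_le (by positivity) hδ1
  have hε0 : 0 < ε := lt_of_lt_of_le (by positivity) hε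
  set u : ℝ := δ / D with hu
  set b : ℝ := ε * lam / M with hb
  have hu0 : 0 < u := by positivity
  have hb0 : 0 < b := by positivity
  have hu1 : u ≤ 1 := by rw [hu, div_le_one hD]; linarith
  have huL : 1 / (Lam * D) ≤ u := ax1 hLam0 hD hδ1
  have hl1 : 1 ≤ lam ^ η' := Real.one_le_rpow hlam hη'0.le
  have hl2 : lam ^ η' * lam ^ η' ≤ lam ^ η := by
    rw [← Real.rpow_add hlam0]
    exact Real.rpow_le_rpow_of_exponent_le hlam (by rw [hη']; linarith)
  have hl3 : lam ^ η' ≤ lam ^ η :=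
    Real.rpow_le_rpow_of_exponent_le hlam (by rw [hη']; linarith)
  have hl0 : 0 < lam ^ η' := by positivity
  have hub0 : 0 < u ^ β * b ^ γ := by positivity
  set m : ℝ := min 1 (min (δ * lam / Lam) b) with hm
  have hm0 : 0 < m := lt_min one_pos (lt_min (by positivity) hb0)
  have hm1 : m ≤ 1 := min_le_left _ _
  have hma : m ≤ δ * lam / Lam := (min_le_right _ _).trans (min_le_left _ _)
  have hmb : m ≤ b := (min_le_right _ _).trans (min_le_right _ _)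
  -- it is enough to have one of the bounds
  have fin : ∀ c : ℝ, 0 ≤ c → c ≤ (16000 * C1 + 256 * (C2 * C3 ^ (p - 2) * C3)) *
      (lam ^ η * u ^ β * b ^ γ) →
      ENNReal.ofReal (c * A ^ (p - 2)) * X ≤
      ENNReal.ofReal ((16000 * C1 + 256 * (C2 * C3 ^ (p - 2) * C3)) *
        (lam ^ η * u ^ β * b ^ γ * A ^ (p - 2))) * X := by
    intro c hc hcc
    refine mul_le_mul' (ENNReal.ofReal_le_ofReal ?_) le_rfl
    calc c * A ^ (p - 2) ≤ (16000 * C1 + 256 * (C2 * C3 ^ (p - 2) * C3)) *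
          (lam ^ η * u ^ β * b ^ γ) * A ^ (p - 2) := by gcongr
      _ = _ := by ring
  have hC4 : 0 ≤ 256 * (C2 * C3 ^ (p - 2) * C3) := by positivity
  by_cases h1 : Lam * D ≤ 4 * lam ^ η'
  · -- case (i)
    have h3 : m ^ (2 - p / 2) ≤ b ^ γ := by
      have := min_arith (m := m) (a := 1) (b := b) hm0 hm1 hm1 hmb hβ hγ hβγ
      rwa [Real.one_rpow, one_mul] at this
    have h2 := hC1 lam Lam M A δ ε g X hlam hLam0 hLl hM0 hMl g1 g2 g3 g4 hδ0 hε0 (b ^ γ) h3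
    refine h2.trans ?_
    rw [show C1 * (lam ^ η' * b ^ γ * A ^ (p - 2)) = C1 * (lam ^ η' * b ^ γ) * A ^ (p - 2) by ring]
    refine fin _ (by positivity) ?_
    have h4 : 1 / (4 * lam ^ η') ≤ u ^ β := by
      have h5 : 1 / (4 * lam ^ η') ≤ u := by
        refine le_trans ?_ huL
        apply one_div_le_one_div_of_le (by positivity) h1
      refine h5.trans ?_
      calc u = u ^ (1 : ℝ) := (Real.rpow_one u).symm
        _ ≤ u ^ β := Real.rpow_le_rpow_of_exponent_ge hu0 hu1 hβ1.le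
    have h6 : lam ^ η' ≤ 4 * (lam ^ η * u ^ β) := ax7 h4 hl0 hl2 (by positivity)
    have h7 : C1 * (lam ^ η' * b ^ γ) ≤ 16000 * C1 * (lam ^ η * u ^ β * b ^ γ) :=
      ax5 hC10 h6 (by positivity) (by positivity) (by positivity)
    have h8 : 0 ≤ 256 * (C2 * C3 ^ (p - 2) * C3) * (lam ^ η * u ^ β * b ^ γ) := by positivity
    rw [add_mul]
    linarith
  push Not at h1
  by_cases h2 : D * lam ≤ 16000 * Lam
  · -- case (ii)(a)
    have h5 : δ * lam / Lam ≤ 16000 * u := ax2 hLam0 hD hδ0 h2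
    have h6 : m ^ (2 - p / 2) ≤ 16000 * (u ^ β * b ^ γ) := by
      have h7 := min_arith (m := m) (a := 16000 * u) (b := b) hm0 hm1 (hma.trans h5) hmb hβ hγ hβγ
      refine h7.trans ?_
      rw [Real.mul_rpow (by norm_num) hu0.le, mul_assoc]
      gcongr
      calc (16000 : ℝ) ^ β ≤ 16000 ^ (1 : ℝ) :=
            Real.rpow_le_rpow_of_exponent_le (by norm_num) hβ1.le
        _ = 16000 := Real.rpow_one _
    have h3 := hC1 lam Lam M A δ ε g X hlam hLam0 hLl hM0 hMl g1 g2 g3 g4 hδ0 hε0 _ h6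
    refine h3.trans ?_
    rw [show C1 * (lam ^ η' * (16000 * (u ^ β * b ^ γ)) * A ^ (p - 2)) =
      C1 * (lam ^ η' * (16000 * (u ^ β * b ^ γ))) * A ^ (p - 2) by ring]
    refine fin _ (by positivity) ?_
    have h7 : C1 * (lam ^ η' * (16000 * (u ^ β * b ^ γ))) ≤
        16000 * C1 * (lam ^ η * u ^ β * b ^ γ) := by
      calc C1 * (lam ^ η' * (16000 * (u ^ β * b ^ γ)))
          ≤ C1 * (lam ^ η * (16000 * (u ^ β * b ^ γ))) := by gcongr
        _ = _ := by ring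
    have h8 : 0 ≤ 256 * (C2 * C3 ^ (p - 2) * C3) * (lam ^ η * u ^ β * b ^ γ) := by positivity
    rw [add_mul]
    linarith
  · -- case (ii)(b)
    push Not at h2
    have hLD1 : 1 ≤ Lam * D := by linarith
    obtain ⟨d1, d2⟩ := hdec hLD1
    obtain ⟨c1, c2, c3, c4, c5, c6⟩ := hC3 M A g hM0 g1 g2 g3
    have e1 : ∫⁻ x, ‖cy M g x‖ₑ ^ 2 ≤ ENNReal.ofReal C3 * X := by
      have := c5 univ MeasurableSet.univ
      simp only [mem_univ] at this
      rw [show {x : ℝ × ℝ | True} = univ from rfl, Measure.restrict_univ] at this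
      exact this.trans (by gcongr)
    have e2 : ∀ x : ℝ × ℝ, |x.1| ≤ D / 2 → ‖cy M g x‖ ≤ (C3 * A) / (Lam * D) ^ N := by
      intro x hx
      have h3 := c4 x.1 (A / (Lam * D) ^ N) (fun z => d1 (x.1, z) hx) x.2
      rw [mul_div_assoc]
      exact h3
    have e3 : ∫⁻ x in {x : ℝ × ℝ | |x.1| ≤ D / 2}, ‖cy M g x‖ₑ ^ 2 ≤
        ENNReal.ofReal (1 / (Lam * D) ^ N) * (ENNReal.ofReal C3 * X) := by
      have h3 := c5 {s : ℝ | |s| ≤ D / 2} (measurableSet_le (by fun_prop) (by fun_prop))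
      refine (h3.trans (mul_le_mul_right d2 _)).trans (le_of_eq ?_)
      ring
    have h3 : ∫⁻ t in Icc (1 : ℝ) 2, ∫⁻ x in {x : ℝ × ℝ | |x.1| ≤ δ ∧ |x.2| ≤ ε},
        ‖cv (KK2 t lam Lam M) g x‖ₑ ^ p ≤
        ENNReal.ofReal (C2 * C3 ^ (p - 2) * C3 * lam⁻¹ * A ^ (p - 2)) * X := by
      calc ∫⁻ t in Icc (1 : ℝ) 2, ∫⁻ x in {x : ℝ × ℝ | |x.1| ≤ δ ∧ |x.2| ≤ ε},
            ‖cv (KK2 t lam Lam M) g x‖ₑ ^ p
          ≤ ∫⁻ t in Icc (1 : ℝ) 2, ENNReal.ofReal (C2 * (lam⁻¹ * (C3 * A) ^ (p - 2))) *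
              (ENNReal.ofReal C3 * X) := by
            apply setLIntegral_mono' measurableSet_Icc
            intro t ht
            have h4 : ∀ x, cv (KK2 t lam Lam M) g x = cv (KK t lam Lam) (cy M g) x :=
              fun x => c6 t lam Lam x hlam0 hLam0
            simp_rw [h4]
            refine (lintegral_mono_set (fun x hx => hx.1)).trans
              (hC2 lam Lam (C3 * A) D δ t (cy M g) (ENNReal.ofReal C3 * X) hlam hLam0 hLl hD h1.le
                h2.le (by linarith [ht.1]) ht.2 hδ2 c1 c3 e1 e2 e3)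
        _ = ENNReal.ofReal (C2 * (lam⁻¹ * (C3 * A) ^ (p - 2))) * (ENNReal.ofReal C3 * X) := by
            rw [lintegral_const, Measure.restrict_apply MeasurableSet.univ, univ_inter,
              Real.volume_Icc]
            norm_num
        _ = _ := by
            rw [← mul_assoc, ← ENNReal.ofReal_mul (by positivity), Real.mul_rpow hC30 hA]
            congr 2
            ring
    refine h3.trans (fin _ (by positivity) ?_)
    have h4 : lam⁻¹ ≤ 256 * (u ^ β * b ^ γ) := by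
      set w : ℝ := 1 / (256 * lam) with hw
      have hw0 : 0 < w := by positivity
      have hw1 : w ≤ 1 := by
        rw [hw, div_le_one (by positivity)]
        linarith
      have h5 : w ≤ u := (ax3 hlam0 hLam0 hD hLl hD64).trans huL
      have h6 : w ≤ b := ax4 hlam hM hMl hε
      have h7 : w ≤ u ^ β * b ^ γ := by
        have h8 := min_arith (m := w) (a := u) (b := b) hw0 hw1 h5 h6 hβ hγ
          (le_refl (β + γ))
        refine le_trans ?_ h8
        calc w = w ^ (1 : ℝ) := (Real.rpow_one w).symm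
          _ ≤ w ^ (β + γ) := Real.rpow_le_rpow_of_exponent_ge hw0 hw1 (by linarith)
      have h8 : lam⁻¹ = 256 * w := by rw [hw]; field_simp
      rw [h8]
      gcongr
    have h5 : 1 ≤ lam ^ η := Real.one_le_rpow hlam hη.le
    have h6 : lam⁻¹ ≤ 256 * (lam ^ η * u ^ β * b ^ γ) := by
      refine h4.trans ?_
      have : 1 * (u ^ β * b ^ γ) ≤ lam ^ η * (u ^ β * b ^ γ) := by gcongr
      rw [one_mul] at this
      rw [mul_assoc (lam ^ η)]
      linarith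
    exact ax6 h6 (by positivity) hC10 (by positivity)

end Pool.Agent.H35.BR
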